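import Pool.Agent.H494_SCM.Main

/-!
Every set `X` of numbers `≤ ω` whose finite part is arithmetical is the spectrum of constructive
models of some uncountably categorical, not countably categorical complete theory in a computable
relational signature.
-/

open FirstOrder Cardinal

namespace Pool.Agent.Results.MP_ed0a9a_lc.ArithmeticalSpectra

open Pool.Agent.H494_SCM

/-- Let `X` be a subset of `ω ∪ {ω}` such that `X ∩ ω` is arithmetical. There is a complete theory
`T` in a computable relational signature, categorical in `ℵ₁` and not in `ℵ₀`, such that exactly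
the models `A i` with `i ∈ X` of the chain `A 0 ≼ A 1 ≼ ... ≼ A ω` of its countable models have a
constructivization. -/
theorem result (X : Set ℕ∞) (hX : IsArith (fun n : ℕ => (n : ℕ∞) ∈ X)) :
    ∃ ar : ℕ → ℕ, Computable ar ∧ ∃ T : (RL ar).Theory, T.IsComplete ∧
      Cardinal.Categorical (ℵ₁ : Cardinal.{0}) T ∧ ¬ Cardinal.Categorical (ℵ₀ : Cardinal.{0}) T ∧
      ∃ A : ℕ∞ → FirstOrder.Language.Theory.ModelType.{0, 0, 0} T, IsChain T A ∧
        {i : ℕ∞ | HasConstr (ar := ar) (A i)} = X := by
  obtain ⟨ar, h1, T, h2, h3, h4, A, h5, h6⟩ := main X hX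
  exact ⟨ar, h1, T, h2, h3, h4, A, h5, Set.ext h6⟩

end Pool.Agent.Results.MP_ed0a9a_lc.ArithmeticalSpectra
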